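import Pool.Agent.H857Z.BrModel

set_option autoImplicit false

namespace Pool.Agent.Results.MP_0e398f_al.AExotic

/-- For every field `k` there is a brachymorphism `f` from the free algebra `k⟨x, y⟩` to `k`
with `f x = f y = 0` and `f (x + y) = 1`. -/
theorem result (k : Type*) [Field k] : ∃ f : FreeAlgebra k (Fin 2) → k,
    (∀ a, f (1 + a) = 1 + f a) ∧ (∀ a b, f (a * b) = f a * f b) ∧
    f (FreeAlgebra.ι k 0) = 0 ∧ f (FreeAlgebra.ι k 1) = 0 ∧
    f (FreeAlgebra.ι k 0 + FreeAlgebra.ι k 1) = 1 :=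
  Pool.Agent.H857Z.Br.exists_free k

end Pool.Agent.Results.MP_0e398f_al.AExotic
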